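import Pool.Agent.H6.CB.Fin

/-! Coulomb matter at temperature zero, in the bulk of an arbitrary domain: the local density
of particles is bounded and the mean potential is bounded up to one additive constant,
uniformly in the number of particles. -/

open MeasureTheory Finset

namespace Pool.Agent.Results.MP_43dd88_mp.BulkBound

open H6.CM

theorem result (q : ℕ) (zm zp κm κp ρ : ℝ) (hzm : 0 < zm) (hκm : 0 < κm) (hρ : 0 < ρ) :
    ∃ C : ℝ, ∀ (Λ : Set E3) (n k : ℕ) (z κ : Fin k → ℝ),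
      (∀ j, zm ≤ z j ∧ z j ≤ zp) → (∀ j, κm ≤ κ j ∧ κ j ≤ κp) → ∑ j, z j = n →
      ∀ W : Finset E3, W.Nonempty → (∀ w ∈ W, Metric.closedBall w 2 ⊆ Λ) →
      (∀ w ∈ W, ∀ w' ∈ W, w ≠ w' → 4 ≤ dist w w') → (n : ℝ) + k ≤ ρ * W.card →
      ∀ ψ : (Fin n → Fin q) → Cfg n k → ℂ, St q n k Λ ψ → mass ψ = 1 →
      (∀ ψ', St q n k Λ ψ' → mass ψ' = 1 →
        energy z κ ψ ≤ energy z κ ψ' + (((n : ℝ) + k + 1) ^ 4)⁻¹) →
      ∀ x y : E3, Metric.closedBall x (C * ((n : ℝ) + k + 1) ^ (3 / 10 : ℝ)) ⊆ Λ →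
        Metric.closedBall y (C * ((n : ℝ) + k + 1) ^ (3 / 10 : ℝ)) ⊆ Λ →
        mean ψ (fun p => near p x) ≤ C ∧
        |mean ψ (fun p => phi z p x) - mean ψ (fun p => phi z p y)| ≤ C := by
  obtain ⟨C, hC⟩ := H6.CB.bulk q zm zp κm κp ρ hzm hκm hρ
  refine ⟨C, fun Λ n k z κ hz hκ hn W h1 h2 h3 h4 ψ hψ hm he x y hx hy => ?_⟩
  have h := hC Λ n k z κ hz hκ hn W h1 h2 h3 h4 ψ hψ hm he x hx
  exact ⟨h.2.2.2.1, h.2.2.2.2 y hy⟩

end Pool.Agent.Results.MP_43dd88_mp.BulkBound
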