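import Pool.Agent.H6.Cub.Main

/-!
Long strings of composite values: for `X ^ (1 - η)` of the integers `k ≤ X`, no cubes, all values
`m ^ 3 + k` with `|m| ≤ log X (log log X) ^ (2 - δ)` are composite.
-/

namespace Pool.Agent.Results.MP_4d57ea_nt.LongStrings

open Pool.Agent.H33.Cubic

theorem result : ∀ δ η : ℝ, 0 < δ → 0 < η →
    ∃ X₀ : ℕ, ∀ X : ℕ, X₀ ≤ X →
      (X : ℝ) ^ (1 - η) ≤ ((Set.ncard {k : ℕ | 1 ≤ k ∧ k ≤ X ∧ ¬ IsCube k ∧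
        ∀ m : ℤ, |(m : ℝ)| ≤ Real.log X * Real.log (Real.log X) ^ (2 - δ) →
          ∃ a b : ℕ, 1 < a ∧ 1 < b ∧ m ^ 3 + (k : ℤ) = a * b} : ℕ) : ℝ) :=
  fun δ η hδ hη => Pool.Agent.H6.Cub.long_strings δ η hδ hη

end Pool.Agent.Results.MP_4d57ea_nt.LongStrings
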